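import Mathlib

/-!
A shock-free eternal gas cloud whose asymptotic shapes at the two time ends differ.

The example is the two-dimensional affine motion `x = A(t) y`, `|y| < 1`, of a gas with `γ = 2`, where
`A(t) y = √(1+t²) (5/4 y + 3/4 e^{iθ(t)} ȳ)` in complex notation and `θ(t) = √2 arctan t`.
The cloud is an ellipse of constant eccentricity whose axes turn by the total angle `√2 π / 2`.
-/

namespace Pool.Agent.Results.MP_f907ca_an.RotatingCloud

open MeasureTheory Set Filter Topology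
open scoped ENNReal ContDiff Pointwise

/-- Euclidean space. -/
abbrev E (d : ℕ) : Type := EuclideanSpace ℝ (Fin d)

/-- The partial derivative in the direction of the `i`-th coordinate axis. -/
noncomputable def pd {d : ℕ} (i : Fin d) (f : E d → ℝ) (x : E d) : ℝ :=
  lineDeriv ℝ f x (EuclideanSpace.single i 1)

/-- The isentropic Euler system with pressure law `p(ρ) = A ρ^γ`, at the point `(t,x)`. -/
def EulerAt {d : ℕ} (A γ : ℝ) (ρ : ℝ → E d → ℝ) (u : ℝ → E d → E d) (t : ℝ) (x : E d) : Prop :=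
  (deriv (fun s => ρ s x) t + ∑ j, pd j (fun y => ρ t y * u t y j) x = 0) ∧
  ∀ i : Fin d, deriv (fun s => ρ s x * u s x i) t + ∑ j, pd j (fun y => ρ t y * u t y i * u t y j) x
    + pd i (fun y => A * ρ t y ^ γ) x = 0

/-- Shock-free eternal flows in vacuum with physical singularity, whose front is smooth:
`Ω(t) = {F(t,·) > 0}` with a smooth function `F` whose differential does not vanish on the front. -/
def IsVacuumFlow (d : ℕ) (A γ : ℝ) (Ω : ℝ → Set (E d)) (ρ : ℝ → E d → ℝ) (u : ℝ → E d → E d)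
    (F : ℝ → E d → ℝ) : Prop :=
  -- the cloud is a bounded open set with smooth boundary
  ContDiff ℝ ∞ (fun z : ℝ × E d => F z.1 z.2) ∧
  (∀ t, Ω t = {x | 0 < F t x} ∧ IsOpen (Ω t) ∧ Bornology.IsBounded (Ω t) ∧ (Ω t).Nonempty) ∧
  (∀ t, ∀ x ∈ frontier (Ω t), fderiv ℝ (F t) x ≠ 0) ∧
  -- positive density inside, vacuum outside, finite mass and energy
  (∀ t, (∀ x ∈ Ω t, 0 < ρ t x) ∧ ∀ x ∉ Ω t, ρ t x = 0) ∧
  (∀ t, Integrable (ρ t) ∧
    Integrable (fun x => ρ t x * ‖u t x‖ ^ 2 / 2 + A * ρ t x ^ γ / (γ - 1))) ∧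
  -- classical solution in the space-time domain of the gas
  ContDiffOn ℝ 1 (fun z : ℝ × E d => ρ z.1 z.2) {z | z.2 ∈ Ω z.1} ∧
  ContDiffOn ℝ 1 (fun z : ℝ × E d => u z.1 z.2) {z | z.2 ∈ Ω z.1} ∧
  (∀ t, ∀ x ∈ Ω t, EulerAt A γ ρ u t x) ∧
  -- `u` is smooth across the front, and the front moves with normal velocity `u · ν`
  (∃ V : Set (ℝ × E d), IsOpen V ∧ (∀ t, ∀ x ∈ frontier (Ω t), (t, x) ∈ V) ∧
    ContDiffOn ℝ ∞ (fun z : ℝ × E d => u z.1 z.2) V) ∧
  (∀ t, ∀ x ∈ frontier (Ω t), deriv (fun s => F s x) t + fderiv ℝ (F t) x (u t x) = 0) ∧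
  -- `c²` is Lipschitz up to the front
  (∀ t, ∃ L, LipschitzOnWith L (fun x => γ * A * ρ t x ^ (γ - 1)) (closure (Ω t))) ∧
  -- the front acceleration `g = -(1/(γ-1)) ∂c²/∂ν` is not identically zero; `ν` is the outer normal
  (∃ t, ∃ x ∈ frontier (Ω t), ∃ ν : E d, ‖ν‖ = 1 ∧
    (∃ l : ℝ, 0 < l ∧ ∀ v, fderiv ℝ (F t) x v = -l * inner ℝ ν v) ∧
    ∃ g : ℝ, 0 < g ∧ Tendsto (fun h : ℝ => (γ * A * ρ t (x - h • ν) ^ (γ - 1)) / ((γ - 1) * h))
      (𝓝[>] 0) (𝓝 g))

/-- `Ω(t)` behaves asymptotically as `t O` along the filter `l` (`atTop` or `atBot`):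
the closures of `t⁻¹ Ω(t)` converge to the closure of `O` in Hausdorff distance. -/
def BehavesAs {d : ℕ} (l : Filter ℝ) (Ω : ℝ → Set (E d)) (O : Set (E d)) : Prop :=
  Tendsto (fun t : ℝ => Metric.hausdorffEDist (closure (t⁻¹ • Ω t)) (closure O)) l (𝓝 0)

/-! ### The example -/

/-- the angle -/
noncomputable def th (t : ℝ) : ℝ := Real.sqrt 2 * Real.arctan t

/-- `1 + t²` -/
noncomputable def P (t : ℝ) : ℝ := 1 + t ^ 2

lemma P_pos (t : ℝ) : 0 < P t := by unfold P; positivity

/-- quadratic form coefficients -/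
noncomputable def al (t : ℝ) : ℝ := (17 / 8 - 15 / 8 * Real.cos (th t)) / P t
/-- quadratic form coefficients -/
noncomputable def be (t : ℝ) : ℝ := (17 / 8 + 15 / 8 * Real.cos (th t)) / P t
/-- quadratic form coefficients -/
noncomputable def ka (t : ℝ) : ℝ := -(15 / 8 * Real.sin (th t)) / P t

/-- the quadratic form `|A(t)⁻¹ x|²` in coordinates -/
noncomputable def Nf (t a b : ℝ) : ℝ := al t * a ^ 2 + be t * b ^ 2 + 2 * ka t * (a * b)

/-- the velocity in coordinates -/
noncomputable def u0 (t a b : ℝ) : ℝ :=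
  ((t - Real.sqrt 2 * (15 / 16) * Real.sin (th t)) * a +
    Real.sqrt 2 * (9 / 16 + 15 / 16 * Real.cos (th t)) * b) / P t
/-- the velocity in coordinates -/
noncomputable def u1 (t a b : ℝ) : ℝ :=
  (Real.sqrt 2 * (-(9 / 16) + 15 / 16 * Real.cos (th t)) * a +
    (t + Real.sqrt 2 * (15 / 16) * Real.sin (th t)) * b) / P t

lemma P_der (t : ℝ) : HasDerivAt P (2 * t) t := by
  unfold P
  have := ((hasDerivAt_id t).fun_pow 2).const_add 1
  simpa using this

lemma th_der (t : ℝ) : HasDerivAt th (Real.sqrt 2 / P t) t := by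
  unfold th P
  refine ((Real.hasDerivAt_arctan t).const_mul (Real.sqrt 2)).congr_deriv ?_
  ring

lemma cos_der (t : ℝ) : HasDerivAt (fun t => Real.cos (th t))
    (-(Real.sin (th t)) * (Real.sqrt 2 / P t)) t := (th_der t).cos

lemma sin_der (t : ℝ) : HasDerivAt (fun t => Real.sin (th t))
    (Real.cos (th t) * (Real.sqrt 2 / P t)) t := (th_der t).sin

lemma al_der (t : ℝ) : HasDerivAt al ((15 / 8 * Real.sqrt 2 * Real.sin (th t) -
    (17 / 8 - 15 / 8 * Real.cos (th t)) * (2 * t)) / P t ^ 2) t := by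
  have hP := (P_pos t).ne'
  have h := (((cos_der t).const_mul (15 / 8)).const_sub (17 / 8)).fun_div (P_der t) hP
  unfold al
  refine h.congr_deriv ?_
  field_simp

lemma be_der (t : ℝ) : HasDerivAt be ((-(15 / 8 * Real.sqrt 2 * Real.sin (th t)) -
    (17 / 8 + 15 / 8 * Real.cos (th t)) * (2 * t)) / P t ^ 2) t := by
  have hP := (P_pos t).ne'
  have h := (((cos_der t).const_mul (15 / 8)).const_add (17 / 8)).fun_div (P_der t) hP
  unfold be
  refine h.congr_deriv ?_
  field_simp

lemma ka_der (t : ℝ) : HasDerivAt ka ((-(15 / 8 * Real.sqrt 2 * Real.cos (th t)) +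
    (15 / 8 * Real.sin (th t)) * (2 * t)) / P t ^ 2) t := by
  have hP := (P_pos t).ne'
  have h := (((sin_der t).const_mul (15 / 8)).fun_neg).fun_div (P_der t) hP
  unfold ka
  refine h.congr_deriv ?_
  field_simp
  ring

/-- time derivative of the quadratic form -/
noncomputable def Nt (t a b : ℝ) : ℝ :=
  (15 / 8 * Real.sqrt 2 * Real.sin (th t) - (17 / 8 - 15 / 8 * Real.cos (th t)) * (2 * t)) / P t ^ 2 * a ^ 2
  + (-(15 / 8 * Real.sqrt 2 * Real.sin (th t)) - (17 / 8 + 15 / 8 * Real.cos (th t)) * (2 * t)) / P t ^ 2 * b ^ 2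
  + 2 * ((-(15 / 8 * Real.sqrt 2 * Real.cos (th t)) + (15 / 8 * Real.sin (th t)) * (2 * t)) / P t ^ 2) * (a * b)

lemma Nf_t (t a b : ℝ) : HasDerivAt (fun s => Nf s a b) (Nt t a b) t := by
  unfold Nf Nt
  exact (((al_der t).mul_const _).fun_add ((be_der t).mul_const _)).fun_add
    (((ka_der t).const_mul 2).mul_const _)

lemma Nf_a (t a b : ℝ) : HasDerivAt (fun a => Nf t a b) (2 * al t * a + 2 * ka t * b) a := by
  unfold Nf
  have h := ((((hasDerivAt_id a).fun_pow 2).const_mul (al t)).add_const (be t * b ^ 2)).fun_add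
    (((hasDerivAt_id a).mul_const b).const_mul (2 * ka t))
  refine h.congr_deriv ?_
  simp; ring

lemma Nf_b (t a b : ℝ) : HasDerivAt (fun b => Nf t a b) (2 * be t * b + 2 * ka t * a) b := by
  unfold Nf
  have h := ((((hasDerivAt_id b).fun_pow 2).const_mul (be t)).const_add (al t * a ^ 2)).fun_add
    (((hasDerivAt_id b).const_mul a).const_mul (2 * ka t))
  refine h.congr_deriv ?_
  simp; ring

/-- the quadratic form is transported by the flow -/
lemma transport (t a b : ℝ) : Nt t a b + u0 t a b * (2 * al t * a + 2 * ka t * b)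
    + u1 t a b * (2 * be t * b + 2 * ka t * a) = 0 := by
  have hP := (P_pos t).ne'
  unfold Nt u0 u1 al be ka
  field_simp
  ring

/-- time derivative of `u0` -/
noncomputable def u0t (t a b : ℝ) : ℝ :=
  ((1 - 2 * (15 / 16) * Real.cos (th t) / P t) * a + (-(2 * (15 / 16) * Real.sin (th t) / P t)) * b) / P t
    - u0 t a b * (2 * t) / P t
/-- time derivative of `u1` -/
noncomputable def u1t (t a b : ℝ) : ℝ :=
  ((-(2 * (15 / 16) * Real.sin (th t) / P t)) * a + (1 + 2 * (15 / 16) * Real.cos (th t) / P t) * b) / P t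
    - u1 t a b * (2 * t) / P t

lemma s2 : Real.sqrt 2 * Real.sqrt 2 = 2 := Real.mul_self_sqrt (by norm_num)

lemma u0_t (t a b : ℝ) : HasDerivAt (fun s => u0 s a b) (u0t t a b) t := by
  have hP := (P_pos t).ne'
  have h1 := ((hasDerivAt_id t).fun_sub ((sin_der t).const_mul (Real.sqrt 2 * (15 / 16)))).mul_const a
  have h2 := ((((cos_der t).const_mul (15 / 16)).const_add (9 / 16)).const_mul (Real.sqrt 2)).mul_const b
  have h3 := (h1.fun_add h2).fun_div (P_der t) hP
  unfold u0 u0t u0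
  refine h3.congr_deriv ?_
  have hs := s2
  simp only [id]
  field_simp
  ring_nf
  have hs2 : Real.sqrt 2 ^ 2 = 2 := Real.sq_sqrt (by norm_num)
  rw [hs2]
  ring

lemma u1_t (t a b : ℝ) : HasDerivAt (fun s => u1 s a b) (u1t t a b) t := by
  have hP := (P_pos t).ne'
  have h1 := ((hasDerivAt_id t).fun_add ((sin_der t).const_mul (Real.sqrt 2 * (15 / 16)))).mul_const b
  have h2 := ((((cos_der t).const_mul (15 / 16)).const_add (-(9 / 16))).const_mul (Real.sqrt 2)).mul_const a
  have h3 := (h2.fun_add h1).fun_div (P_der t) hP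
  unfold u1 u1t u1
  refine h3.congr_deriv ?_
  simp only [id]
  field_simp
  ring_nf
  have hs2 : Real.sqrt 2 ^ 2 = 2 := Real.sq_sqrt (by norm_num)
  rw [hs2]
  ring

/-- coefficients of `u` -/
noncomputable def c00 (t : ℝ) : ℝ := (t - Real.sqrt 2 * (15 / 16) * Real.sin (th t)) / P t
/-- coefficients of `u` -/
noncomputable def c01 (t : ℝ) : ℝ := Real.sqrt 2 * (9 / 16 + 15 / 16 * Real.cos (th t)) / P t
/-- coefficients of `u` -/
noncomputable def c10 (t : ℝ) : ℝ := Real.sqrt 2 * (-(9 / 16) + 15 / 16 * Real.cos (th t)) / P t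
/-- coefficients of `u` -/
noncomputable def c11 (t : ℝ) : ℝ := (t + Real.sqrt 2 * (15 / 16) * Real.sin (th t)) / P t

lemma u0_eq (t a b : ℝ) : u0 t a b = c00 t * a + c01 t * b := by unfold u0 c00 c01; ring
lemma u1_eq (t a b : ℝ) : u1 t a b = c10 t * a + c11 t * b := by unfold u1 c10 c11; ring

lemma u0_a (t a b : ℝ) : HasDerivAt (fun a => u0 t a b) (c00 t) a := by
  simp only [u0_eq]
  simpa using ((hasDerivAt_id a).const_mul (c00 t)).add_const (c01 t * b)
lemma u0_b (t a b : ℝ) : HasDerivAt (fun b => u0 t a b) (c01 t) b := by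
  simp only [u0_eq]
  simpa using ((hasDerivAt_id b).const_mul (c01 t)).const_add (c00 t * a)
lemma u1_a (t a b : ℝ) : HasDerivAt (fun a => u1 t a b) (c10 t) a := by
  simp only [u1_eq]
  simpa using ((hasDerivAt_id a).const_mul (c10 t)).add_const (c11 t * b)
lemma u1_b (t a b : ℝ) : HasDerivAt (fun b => u1 t a b) (c11 t) b := by
  simp only [u1_eq]
  simpa using ((hasDerivAt_id b).const_mul (c11 t)).const_add (c10 t * a)

lemma acc0 (t a b : ℝ) : u0t t a b + u0 t a b * c00 t + u1 t a b * c01 t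
    = (al t * a + ka t * b) / P t := by
  have hP := (P_pos t).ne'
  have hs2 : Real.sqrt 2 ^ 2 = 2 := Real.sq_sqrt (by norm_num)
  have h2 : Real.sin (th t) ^ 2 = 1 - Real.cos (th t) ^ 2 := by
    linarith [Real.sin_sq_add_cos_sq (th t)]
  unfold u0t u0 u1 c00 c01 al ka
  field_simp
  ring_nf
  simp only [hs2, h2]
  unfold P
  ring

lemma acc1 (t a b : ℝ) : u1t t a b + u0 t a b * c10 t + u1 t a b * c11 t
    = (be t * b + ka t * a) / P t := by
  have hP := (P_pos t).ne'
  have hs2 : Real.sqrt 2 ^ 2 = 2 := Real.sq_sqrt (by norm_num)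
  have h2 : Real.sin (th t) ^ 2 = 1 - Real.cos (th t) ^ 2 := by
    linarith [Real.sin_sq_add_cos_sq (th t)]
  unfold u1t u0 u1 c10 c11 be ka
  field_simp
  ring_nf
  simp only [hs2, h2]
  unfold P
  ring

lemma div_u (t : ℝ) : c00 t + c11 t = 2 * t / P t := by unfold c00 c11; ring


/-! ### The flow on the plane -/

/-- defining function of the cloud -/
noncomputable def F (t : ℝ) (x : E 2) : ℝ := 1 - Nf t (x 0) (x 1)
/-- the density before truncation -/
noncomputable def R (A t : ℝ) (x : E 2) : ℝ := 1 / (4 * A) / P t * F t x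
/-- the density -/
noncomputable def rho (A t : ℝ) (x : E 2) : ℝ := max (R A t x) 0
/-- the velocity -/
noncomputable def vel (t : ℝ) (x : E 2) : E 2 := !₂[u0 t (x 0) (x 1), u1 t (x 0) (x 1)]
/-- the cloud -/
def Om (t : ℝ) : Set (E 2) := {x | 0 < F t x}

lemma th_smooth : ContDiff ℝ ∞ th := by
  unfold th
  exact contDiff_const.mul (Real.contDiff_arctan.of_le le_top)

lemma P_smooth : ContDiff ℝ ∞ P := by unfold P; fun_prop

lemma al_smooth : ContDiff ℝ ∞ al := by
  unfold al
  exact (contDiff_const.sub (contDiff_const.mul (Real.contDiff_cos.comp th_smooth))).div P_smooth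
    fun t => (P_pos t).ne'
lemma be_smooth : ContDiff ℝ ∞ be := by
  unfold be
  exact (contDiff_const.add (contDiff_const.mul (Real.contDiff_cos.comp th_smooth))).div P_smooth
    fun t => (P_pos t).ne'
lemma ka_smooth : ContDiff ℝ ∞ ka := by
  unfold ka
  exact ((contDiff_const.mul (Real.contDiff_sin.comp th_smooth)).neg).div P_smooth
    fun t => (P_pos t).ne'
lemma c00_smooth : ContDiff ℝ ∞ c00 := by
  unfold c00
  exact (contDiff_id.sub (contDiff_const.mul (Real.contDiff_sin.comp th_smooth))).div P_smooth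
    fun t => (P_pos t).ne'
lemma c01_smooth : ContDiff ℝ ∞ c01 := by
  unfold c01
  exact (contDiff_const.mul (contDiff_const.add (contDiff_const.mul
    (Real.contDiff_cos.comp th_smooth)))).div P_smooth fun t => (P_pos t).ne'
lemma c10_smooth : ContDiff ℝ ∞ c10 := by
  unfold c10
  exact (contDiff_const.mul (contDiff_const.add (contDiff_const.mul
    (Real.contDiff_cos.comp th_smooth)))).div P_smooth fun t => (P_pos t).ne'
lemma c11_smooth : ContDiff ℝ ∞ c11 := by
  unfold c11
  exact (contDiff_id.add (contDiff_const.mul (Real.contDiff_sin.comp th_smooth))).div P_smooth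
    fun t => (P_pos t).ne'

lemma coord_smooth (i : Fin 2) : ContDiff ℝ ∞ (fun z : ℝ × E 2 => z.2 i) := by
  exact (EuclideanSpace.proj (𝕜 := ℝ) i : E 2 →L[ℝ] ℝ).contDiff.comp contDiff_snd

lemma F_smooth : ContDiff ℝ ∞ (fun z : ℝ × E 2 => F z.1 z.2) := by
  unfold F Nf
  have h0 := coord_smooth 0
  have h1 := coord_smooth 1
  have ha := al_smooth.comp (contDiff_fst (E := ℝ) (F := E 2) (𝕜 := ℝ))
  have hb := be_smooth.comp (contDiff_fst (E := ℝ) (F := E 2) (𝕜 := ℝ))
  have hk := ka_smooth.comp (contDiff_fst (E := ℝ) (F := E 2) (𝕜 := ℝ))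
  exact contDiff_const.sub (((ha.mul (h0.pow 2)).add (hb.mul (h1.pow 2))).add
    ((contDiff_const.mul hk).mul (h0.mul h1)))

lemma R_smooth (A : ℝ) : ContDiff ℝ ∞ (fun z : ℝ × E 2 => R A z.1 z.2) := by
  unfold R
  have hP := P_smooth.comp (contDiff_fst (E := ℝ) (F := E 2) (𝕜 := ℝ))
  exact (contDiff_const.div hP fun z => (P_pos z.1).ne').mul F_smooth

lemma vel_smooth : ContDiff ℝ ∞ (fun z : ℝ × E 2 => vel z.1 z.2) := by
  rw [contDiff_euclidean]
  have h0 := coord_smooth 0
  have h1 := coord_smooth 1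
  have a00 := c00_smooth.comp (contDiff_fst (E := ℝ) (F := E 2) (𝕜 := ℝ))
  have a01 := c01_smooth.comp (contDiff_fst (E := ℝ) (F := E 2) (𝕜 := ℝ))
  have a10 := c10_smooth.comp (contDiff_fst (E := ℝ) (F := E 2) (𝕜 := ℝ))
  have a11 := c11_smooth.comp (contDiff_fst (E := ℝ) (F := E 2) (𝕜 := ℝ))
  intro i
  fin_cases i
  · have : (fun z : ℝ × E 2 => (vel z.1 z.2) 0) = fun z => c00 z.1 * z.2 0 + c01 z.1 * z.2 1 := by
      funext z; simp [vel, u0_eq]
    show ContDiff ℝ ∞ (fun z : ℝ × E 2 => (vel z.1 z.2) 0)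
    rw [this]
    exact (a00.mul h0).add (a01.mul h1)
  · have : (fun z : ℝ × E 2 => (vel z.1 z.2) 1) = fun z => c10 z.1 * z.2 0 + c11 z.1 * z.2 1 := by
      funext z; simp [vel, u1_eq]
    show ContDiff ℝ ∞ (fun z : ℝ × E 2 => (vel z.1 z.2) 1)
    rw [this]
    exact (a10.mul h0).add (a11.mul h1)

lemma Omst_open : IsOpen {z : ℝ × E 2 | z.2 ∈ Om z.1} :=
  isOpen_lt continuous_const F_smooth.continuous

lemma rho_eq {A : ℝ} (hA : 0 < A) {t : ℝ} {x : E 2} (h : 0 < F t x) : rho A t x = R A t x := by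
  unfold rho
  apply max_eq_left
  unfold R
  have := P_pos t
  positivity

lemma pd0 {f : E 2 → ℝ} {g : ℝ → ℝ → ℝ} {g' : ℝ} {x : E 2}
    (h : ∀ᶠ y in 𝓝 x, f y = g (y 0) (y 1)) (hd : HasDerivAt (fun a => g a (x 1)) g' (x 0)) :
    pd 0 f x = g' := by
  unfold pd lineDeriv
  have hc : Tendsto (fun s : ℝ => x + s • (EuclideanSpace.single 0 1 : E 2)) (𝓝 0) (𝓝 x) := by
    have : Continuous fun s : ℝ => x + s • (EuclideanSpace.single 0 1 : E 2) := by fun_prop
    simpa using this.tendsto 0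
  have h1 : HasDerivAt (fun s : ℝ => g (x 0 + s) (x 1)) g' 0 := by
    have := HasDerivAt.comp_const_add (f := fun a => g a (x 1)) (x 0) 0 (by simpa using hd)
    exact this
  refine (h1.congr_of_eventuallyEq ?_).deriv
  filter_upwards [hc.eventually h] with s hs
  rw [hs]; simp

lemma pd1 {f : E 2 → ℝ} {g : ℝ → ℝ → ℝ} {g' : ℝ} {x : E 2}
    (h : ∀ᶠ y in 𝓝 x, f y = g (y 0) (y 1)) (hd : HasDerivAt (fun b => g (x 0) b) g' (x 1)) :
    pd 1 f x = g' := by
  unfold pd lineDeriv
  have hc : Tendsto (fun s : ℝ => x + s • (EuclideanSpace.single 1 1 : E 2)) (𝓝 0) (𝓝 x) := by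
    have : Continuous fun s : ℝ => x + s • (EuclideanSpace.single 1 1 : E 2) := by fun_prop
    simpa using this.tendsto 0
  have h1 : HasDerivAt (fun s : ℝ => g (x 0) (x 1 + s)) g' 0 := by
    have := HasDerivAt.comp_const_add (f := fun b => g (x 0) b) (x 1) 0 (by simpa using hd)
    exact this
  refine (h1.congr_of_eventuallyEq ?_).deriv
  filter_upwards [hc.eventually h] with s hs
  rw [hs]; simp

/-- density in coordinates -/
noncomputable def r (A t a b : ℝ) : ℝ := 1 / (4 * A) / P t * (1 - Nf t a b)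

lemma r_a (A t a b : ℝ) : HasDerivAt (fun a => r A t a b)
    (1 / (4 * A) / P t * (-(2 * al t * a + 2 * ka t * b))) a := by
  unfold r
  exact ((Nf_a t a b).const_sub 1).const_mul _

lemma r_b (A t a b : ℝ) : HasDerivAt (fun b => r A t a b)
    (1 / (4 * A) / P t * (-(2 * be t * b + 2 * ka t * a))) b := by
  unfold r
  exact ((Nf_b t a b).const_sub 1).const_mul _

/-- time derivative of the density -/
noncomputable def rt (A t a b : ℝ) : ℝ :=
  1 / (4 * A) * ((-Nt t a b) / P t - (1 - Nf t a b) * (2 * t) / P t ^ 2)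

lemma r_t (A t a b : ℝ) : HasDerivAt (fun s => r A s a b) (rt A t a b) t := by
  have hP := (P_pos t).ne'
  have h := (((Nf_t t a b).const_sub 1).fun_div (P_der t) hP).const_mul (1 / (4 * A))
  have e : (fun s => r A s a b) = fun s => 1 / (4 * A) * ((1 - Nf s a b) / P s) := by
    funext s; unfold r; ring
  rw [e]
  refine h.congr_deriv ?_
  unfold rt
  field_simp

lemma mass (A t a b : ℝ) : rt A t a b + ((1 / (4 * A) / P t * (-(2 * al t * a + 2 * ka t * b))) * u0 t a b
    + r A t a b * c00 t) + ((1 / (4 * A) / P t * (-(2 * be t * b + 2 * ka t * a))) * u1 t a b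
    + r A t a b * c11 t) = 0 := by
  have hP := (P_pos t).ne'
  have h1 := transport t a b
  have h2 := div_u t
  have e1 : rt A t a b = 1 / (4 * A) / P t * (-Nt t a b) - r A t a b * (2 * t / P t) := by
    unfold rt r; field_simp
  rw [e1, ← h2]
  linear_combination (-(1 / (4 * A) / P t)) * h1

lemma euler {A : ℝ} (hA : 0 < A) {t : ℝ} {x : E 2} (hx : 0 < F t x) :
    EulerAt A 2 (rho A) vel t x := by
  have hev : ∀ᶠ z in 𝓝 (t, x), rho A z.1 z.2 = r A z.1 (z.2 0) (z.2 1) := by
    filter_upwards [Omst_open.mem_nhds (show (t, x) ∈ {z : ℝ × E 2 | z.2 ∈ Om z.1} from hx)] with z hz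
    rw [rho_eq hA hz]; rfl
  have hevx : ∀ᶠ y in 𝓝 x, rho A t y = r A t (y 0) (y 1) := by
    have hc : Tendsto (fun y : E 2 => (t, y)) (𝓝 x) (𝓝 (t, x)) :=
      (Continuous.prodMk_right t).tendsto x
    exact hc.eventually hev
  have hevt : ∀ᶠ s in 𝓝 t, rho A s x = r A s (x 0) (x 1) := by
    have hc : Tendsto (fun s : ℝ => (s, x)) (𝓝 t) (𝓝 (t, x)) :=
      (Continuous.prodMk_left x).tendsto t
    exact hc.eventually hev
  have hv0 : ∀ s (y : E 2), vel s y 0 = u0 s (y 0) (y 1) := fun s y => by simp [vel]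
  have hv1 : ∀ s (y : E 2), vel s y 1 = u1 s (y 0) (y 1) := fun s y => by simp [vel]
  set a := x 0 with ha
  set b := x 1 with hb
  have d1 : deriv (fun s => rho A s x) t = rt A t a b :=
    ((r_t A t a b).congr_of_eventuallyEq hevt).deriv
  have d2 : pd 0 (fun y => rho A t y * vel t y 0) x =
      (1 / (4 * A) / P t * (-(2 * al t * a + 2 * ka t * b))) * u0 t a b + r A t a b * c00 t :=
    pd0 (g := fun a b => r A t a b * u0 t a b)
      (by filter_upwards [hevx] with y hy; rw [hy, hv0]) ((r_a A t a b).fun_mul (u0_a t a b))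
  have d3 : pd 1 (fun y => rho A t y * vel t y 1) x =
      (1 / (4 * A) / P t * (-(2 * be t * b + 2 * ka t * a))) * u1 t a b + r A t a b * c11 t :=
    pd1 (g := fun a b => r A t a b * u1 t a b)
      (by filter_upwards [hevx] with y hy; rw [hy, hv1]) ((r_b A t a b).fun_mul (u1_b t a b))
  have hmass := mass A t a b
  refine ⟨?_, ?_⟩
  · rw [Fin.sum_univ_two, d1, d2, d3]; linarith
  · have hP := (P_pos t).ne'
    intro i
    fin_cases i
    · have m1 : deriv (fun s => rho A s x * vel s x 0) t = rt A t a b * u0 t a b + r A t a b * u0t t a b := by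
        refine (((r_t A t a b).fun_mul (u0_t t a b)).congr_of_eventuallyEq ?_).deriv
        filter_upwards [hevt] with s hs; rw [hs, hv0]
      have m2 : pd 0 (fun y => rho A t y * vel t y 0 * vel t y 0) x = _ :=
        pd0 (g := fun a b => r A t a b * u0 t a b * u0 t a b)
          (by filter_upwards [hevx] with y hy; rw [hy, hv0])
          (((r_a A t a b).fun_mul (u0_a t a b)).fun_mul (u0_a t a b))
      have m3 : pd 1 (fun y => rho A t y * vel t y 0 * vel t y 1) x = _ :=
        pd1 (g := fun a b => r A t a b * u0 t a b * u1 t a b)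
          (by filter_upwards [hevx] with y hy; rw [hy, hv0, hv1])
          (((r_b A t a b).fun_mul (u0_b t a b)).fun_mul (u1_b t a b))
      have m4 : pd 0 (fun y => A * rho A t y ^ (2:ℝ)) x = _ :=
        pd0 (g := fun a b => A * r A t a b ^ 2)
          (by filter_upwards [hevx] with y hy; rw [hy, Real.rpow_two])
          (((r_a A t a b).fun_pow 2).const_mul A)
      show deriv (fun s => rho A s x * vel s x 0) t +
        ∑ j, pd j (fun y => rho A t y * vel t y 0 * vel t y j) x +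
        pd 0 (fun y => A * rho A t y ^ (2:ℝ)) x = 0
      rw [Fin.sum_univ_two, m1, m2, m3, m4]
      have h0 := acc0 t a b
      have e : 2 * A * (1 / (4 * A) / P t * (-(2 * al t * a + 2 * ka t * b))) =
          -((al t * a + ka t * b) / P t) := by
        field_simp; ring
      simp only []
      push_cast
      linear_combination (u0 t a b) * hmass + (r A t a b) * h0 + (r A t a b) * e
    · have m1 : deriv (fun s => rho A s x * vel s x 1) t = rt A t a b * u1 t a b + r A t a b * u1t t a b := by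
        refine (((r_t A t a b).fun_mul (u1_t t a b)).congr_of_eventuallyEq ?_).deriv
        filter_upwards [hevt] with s hs; rw [hs, hv1]
      have m2 : pd 0 (fun y => rho A t y * vel t y 1 * vel t y 0) x = _ :=
        pd0 (g := fun a b => r A t a b * u1 t a b * u0 t a b)
          (by filter_upwards [hevx] with y hy; rw [hy, hv0, hv1])
          (((r_a A t a b).fun_mul (u1_a t a b)).fun_mul (u0_a t a b))
      have m3 : pd 1 (fun y => rho A t y * vel t y 1 * vel t y 1) x = _ :=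
        pd1 (g := fun a b => r A t a b * u1 t a b * u1 t a b)
          (by filter_upwards [hevx] with y hy; rw [hy, hv1])
          (((r_b A t a b).fun_mul (u1_b t a b)).fun_mul (u1_b t a b))
      have m4 : pd 1 (fun y => A * rho A t y ^ (2:ℝ)) x = _ :=
        pd1 (g := fun a b => A * r A t a b ^ 2)
          (by filter_upwards [hevx] with y hy; rw [hy, Real.rpow_two])
          (((r_b A t a b).fun_pow 2).const_mul A)
      show deriv (fun s => rho A s x * vel s x 1) t +
        ∑ j, pd j (fun y => rho A t y * vel t y 1 * vel t y j) x +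
        pd 1 (fun y => A * rho A t y ^ (2:ℝ)) x = 0
      rw [Fin.sum_univ_two, m1, m2, m3, m4]
      have h0 := acc1 t a b
      have e : 2 * A * (1 / (4 * A) / P t * (-(2 * be t * b + 2 * ka t * a))) =
          -((be t * b + ka t * a) / P t) := by
        field_simp; ring
      simp only []
      push_cast
      linear_combination (u1 t a b) * hmass + (r A t a b) * h0 + (r A t a b) * e


/-! ### The cloud as an affine image of the disc -/

/-- the linear map `B` with angle `θ` -/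
noncomputable def Bmap (θ : ℝ) (y : E 2) : E 2 :=
  !₂[(5 / 4 + 3 / 4 * Real.cos θ) * y 0 + 3 / 4 * Real.sin θ * y 1,
     3 / 4 * Real.sin θ * y 0 + (5 / 4 - 3 / 4 * Real.cos θ) * y 1]

/-- the inverse of `B` -/
noncomputable def Binv (θ : ℝ) (y : E 2) : E 2 :=
  !₂[(5 / 4 - 3 / 4 * Real.cos θ) * y 0 - 3 / 4 * Real.sin θ * y 1,
     -(3 / 4 * Real.sin θ) * y 0 + (5 / 4 + 3 / 4 * Real.cos θ) * y 1]

lemma Bmap_Binv (θ : ℝ) (y : E 2) : Bmap θ (Binv θ y) = y := by
  have h2 : Real.sin θ ^ 2 = 1 - Real.cos θ ^ 2 := by linarith [Real.sin_sq_add_cos_sq θ]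
  ext i
  fin_cases i
  · simp only [Bmap, Binv]
    simp
    ring_nf
    rw [h2]; ring
  · simp only [Bmap, Binv]
    simp
    ring_nf
    rw [h2]; ring

lemma nsq (y : E 2) : ‖y‖ ^ 2 = y 0 ^ 2 + y 1 ^ 2 := by
  rw [EuclideanSpace.norm_sq_eq]; simp

/-- the quadratic form of the ellipse -/
noncomputable def qf (θ : ℝ) (y : E 2) : ℝ :=
  (17 / 8 - 15 / 8 * Real.cos θ) * y 0 ^ 2 + (17 / 8 + 15 / 8 * Real.cos θ) * y 1 ^ 2
    - 15 / 4 * Real.sin θ * (y 0 * y 1)

lemma Binv_norm (θ : ℝ) (y : E 2) : ‖Binv θ y‖ ^ 2 = qf θ y := by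
  have h2 : Real.sin θ ^ 2 = 1 - Real.cos θ ^ 2 := by linarith [Real.sin_sq_add_cos_sq θ]
  rw [nsq]
  simp only [Binv, qf]
  simp
  ring_nf
  rw [h2]; ring

lemma qf_Bmap (θ : ℝ) (y : E 2) : qf θ (Bmap θ y) = ‖y‖ ^ 2 := by
  have h2 : Real.sin θ ^ 2 = 1 - Real.cos θ ^ 2 := by linarith [Real.sin_sq_add_cos_sq θ]
  have h3 : Real.sin θ ^ 3 = (1 - Real.cos θ ^ 2) * Real.sin θ := by rw [← h2]; ring
  rw [nsq]
  simp only [Bmap, qf]
  simp
  ring_nf
  simp only [h2, h3]; ring

lemma Nf_eq (t : ℝ) (x : E 2) : Nf t (x 0) (x 1) = qf (th t) x / P t := by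
  unfold Nf qf al be ka; ring

lemma qf_smul (θ c : ℝ) (y : E 2) : qf θ (c • y) = c ^ 2 * qf θ y := by
  unfold qf; simp; ring

/-- `Ω(t) = √(1+t²) B(θ(t)) D` -/
lemma Om_eq (t : ℝ) : Om t = (fun y => Real.sqrt (P t) • Bmap (th t) y) '' Metric.ball (0 : E 2) 1 := by
  have hP := P_pos t
  have hs : Real.sqrt (P t) ^ 2 = P t := Real.sq_sqrt hP.le
  have hs0 : 0 < Real.sqrt (P t) := Real.sqrt_pos.mpr hP
  ext x
  simp only [Om, mem_ofPred_eq, mem_image, Metric.mem_ball, dist_zero_right, F]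
  rw [Nf_eq]
  constructor
  · intro h
    refine ⟨Binv (th t) ((Real.sqrt (P t))⁻¹ • x), ?_, ?_⟩
    · have h1 := Binv_norm (th t) ((Real.sqrt (P t))⁻¹ • x)
      rw [qf_smul, inv_pow, hs] at h1
      have h2 : ‖Binv (th t) ((Real.sqrt (P t))⁻¹ • x)‖ ^ 2 < 1 ^ 2 := by
        rw [h1]
        have : (P t)⁻¹ * qf (th t) x = qf (th t) x / P t := by ring
        rw [this]; linarith
      exact lt_of_pow_lt_pow_left₀ 2 zero_le_one h2
    · rw [Bmap_Binv, smul_smul, mul_inv_cancel₀ hs0.ne', one_smul]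
  · rintro ⟨y, hy, rfl⟩
    rw [qf_smul, qf_Bmap, hs, mul_div_assoc, mul_comm, div_mul_cancel₀ _ hP.ne']
    have : ‖y‖ ^ 2 < 1 := by nlinarith [norm_nonneg y]
    linarith


/-! ### Hausdorff convergence -/

lemma nrm_le (x : E 2) : ‖x‖ ≤ |x 0| + |x 1| := by
  rw [EuclideanSpace.norm_eq, Fin.sum_univ_two, Real.norm_eq_abs, Real.norm_eq_abs, Real.sqrt_le_iff]
  constructor
  · positivity
  · have := abs_nonneg (x 0); have := abs_nonneg (x 1); nlinarith

lemma le_nrm (x : E 2) (i : Fin 2) : |x i| ≤ ‖x‖ := by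
  have := PiLp.norm_apply_le x i
  simpa [Real.norm_eq_abs] using this

lemma haus_le {L1 L2 : E 2 → E 2} {ε : ℝ} {D : Set (E 2)}
    (h : ∀ y ∈ D, dist (L1 y) (L2 y) ≤ ε) :
    Metric.hausdorffEDist (closure (L1 '' D)) (closure (L2 '' D)) ≤ ENNReal.ofReal ε := by
  rw [Metric.hausdorffEDist_closure]
  apply Metric.hausdorffEDist_le_of_mem_edist
  · rintro _ ⟨y, hy, rfl⟩
    refine ⟨L2 y, ⟨y, hy, rfl⟩, ?_⟩
    rw [edist_dist]
    exact ENNReal.ofReal_le_ofReal (h y hy)
  · rintro _ ⟨y, hy, rfl⟩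
    refine ⟨L1 y, ⟨y, hy, rfl⟩, ?_⟩
    rw [edist_dist, dist_comm]
    exact ENNReal.ofReal_le_ofReal (h y hy)

/-- distance of the matrices `c B(θ)` and `c' B(θ')` -/
noncomputable def eps (c θ c' θ' : ℝ) : ℝ :=
  |c * (5 / 4 + 3 / 4 * Real.cos θ) - c' * (5 / 4 + 3 / 4 * Real.cos θ')| +
  |c * (3 / 4 * Real.sin θ) - c' * (3 / 4 * Real.sin θ')| +
  (|c * (3 / 4 * Real.sin θ) - c' * (3 / 4 * Real.sin θ')| +
  |c * (5 / 4 - 3 / 4 * Real.cos θ) - c' * (5 / 4 - 3 / 4 * Real.cos θ')|)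

lemma dist_B (c θ c' θ' : ℝ) (y : E 2) (hy : y ∈ Metric.ball (0 : E 2) 1) :
    dist (c • Bmap θ y) (c' • Bmap θ' y) ≤ eps c θ c' θ' := by
  have hy1 : ‖y‖ < 1 := by simpa using hy
  have h0 : |y 0| ≤ 1 := (le_nrm y 0).trans hy1.le
  have h1 : |y 1| ≤ 1 := (le_nrm y 1).trans hy1.le
  rw [dist_eq_norm]
  refine (nrm_le _).trans ?_
  have e0 : (c • Bmap θ y - c' • Bmap θ' y) 0 =
      (c * (5 / 4 + 3 / 4 * Real.cos θ) - c' * (5 / 4 + 3 / 4 * Real.cos θ')) * y 0 +
      (c * (3 / 4 * Real.sin θ) - c' * (3 / 4 * Real.sin θ')) * y 1 := by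
    simp [Bmap]; ring
  have e1 : (c • Bmap θ y - c' • Bmap θ' y) 1 =
      (c * (3 / 4 * Real.sin θ) - c' * (3 / 4 * Real.sin θ')) * y 0 +
      (c * (5 / 4 - 3 / 4 * Real.cos θ) - c' * (5 / 4 - 3 / 4 * Real.cos θ')) * y 1 := by
    simp [Bmap]; ring
  rw [e0, e1]
  have key : ∀ a b : ℝ, |a * y 0 + b * y 1| ≤ |a| + |b| := by
    intro a b
    refine (abs_add_le _ _).trans ?_
    rw [abs_mul, abs_mul]
    have := abs_nonneg a
    have := abs_nonneg b
    nlinarith
  unfold eps
  exact add_le_add (key _ _) (key _ _)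

lemma eps_tendsto {l : Filter ℝ} {c θ : ℝ → ℝ} {c' θ' : ℝ} (hc : Tendsto c l (𝓝 c'))
    (hθ : Tendsto θ l (𝓝 θ')) : Tendsto (fun t => eps (c t) (θ t) c' θ') l (𝓝 0) := by
  have hcos := (Real.continuous_cos.tendsto θ').comp hθ
  have hsin := (Real.continuous_sin.tendsto θ').comp hθ
  have g1 := ((hc.mul ((hcos.const_mul (3 / 4)).const_add (5 / 4))).sub_const
    (c' * (5 / 4 + 3 / 4 * Real.cos θ'))).abs
  have g2 := ((hc.mul (hsin.const_mul (3 / 4))).sub_const (c' * (3 / 4 * Real.sin θ'))).abs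
  have g3 := ((hc.mul ((hcos.const_mul (3 / 4)).const_sub (5 / 4))).sub_const
    (c' * (5 / 4 - 3 / 4 * Real.cos θ'))).abs
  have g := (g1.add g2).add (g2.add g3)
  have e : |c' * (5 / 4 + 3 / 4 * Real.cos θ') - c' * (5 / 4 + 3 / 4 * Real.cos θ')| +
    |c' * (3 / 4 * Real.sin θ') - c' * (3 / 4 * Real.sin θ')| +
    (|c' * (3 / 4 * Real.sin θ') - c' * (3 / 4 * Real.sin θ')| +
    |c' * (5 / 4 - 3 / 4 * Real.cos θ') - c' * (5 / 4 - 3 / 4 * Real.cos θ')|) = 0 := by simp
  rw [e] at g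
  exact g

/-- the limit shape with angle `θ` -/
noncomputable def Osh (θ : ℝ) : Set (E 2) := Bmap θ '' Metric.ball (0 : E 2) 1

lemma Osh_neg (θ : ℝ) : Osh θ = (fun y => (-1 : ℝ) • Bmap θ y) '' Metric.ball (0 : E 2) 1 := by
  have hneg : ∀ y, (-1 : ℝ) • Bmap θ y = Bmap θ (-y) := by
    intro y; ext i; fin_cases i <;> simp [Bmap] <;> ring
  ext x
  constructor
  · rintro ⟨y, hy, rfl⟩
    refine ⟨-y, by simpa using hy, ?_⟩
    show (-1 : ℝ) • Bmap θ (-y) = Bmap θ y
    rw [hneg, neg_neg]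
  · rintro ⟨y, hy, rfl⟩
    refine ⟨-y, by simpa using hy, ?_⟩
    show Bmap θ (-y) = (-1 : ℝ) • Bmap θ y
    rw [hneg]

lemma smul_Om (t : ℝ) : t⁻¹ • Om t =
    (fun y => (t⁻¹ * Real.sqrt (P t)) • Bmap (th t) y) '' Metric.ball (0 : E 2) 1 := by
  rw [Om_eq, ← image_smul, image_image]
  simp only [smul_smul]

lemma m_top : Tendsto (fun t : ℝ => t⁻¹ * Real.sqrt (P t)) atTop (𝓝 1) := by
  have h1 : Tendsto (fun t : ℝ => Real.sqrt ((t⁻¹) ^ 2 + 1)) atTop (𝓝 (Real.sqrt (0 ^ 2 + 1))) := by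
    apply (Real.continuous_sqrt.tendsto _).comp
    exact (tendsto_inv_atTop_zero.pow 2).add_const 1
  have h2 : Real.sqrt (0 ^ 2 + 1) = 1 := by norm_num
  rw [h2] at h1
  refine h1.congr' ?_
  filter_upwards [eventually_gt_atTop 0] with t ht
  have h3 : t⁻¹ = Real.sqrt ((t⁻¹) ^ 2) := (Real.sqrt_sq (by positivity)).symm
  have h4 : t⁻¹ * Real.sqrt (P t) = Real.sqrt ((t⁻¹) ^ 2 * P t) := by
    rw [Real.sqrt_mul (sq_nonneg _), ← h3]
  rw [h4]
  congr 1
  unfold P
  field_simp

lemma m_bot : Tendsto (fun t : ℝ => t⁻¹ * Real.sqrt (P t)) atBot (𝓝 (-1)) := by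
  have h := (m_top.comp tendsto_neg_atBot_atTop).neg
  refine h.congr fun t => ?_
  simp only [Function.comp]
  unfold P
  rw [inv_neg, neg_sq]; ring

/-- the limit angle -/
noncomputable def thinf : ℝ := Real.sqrt 2 * (Real.pi / 2)

lemma behaves_top : BehavesAs atTop Om (Osh thinf) := by
  unfold BehavesAs
  have hθ : Tendsto th atTop (𝓝 thinf) :=
    (Real.tendsto_arctan_atTop.mono_right nhdsWithin_le_nhds).const_mul (Real.sqrt 2)
  have h1 := ENNReal.tendsto_ofReal (eps_tendsto m_top hθ)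
  rw [ENNReal.ofReal_zero] at h1
  refine tendsto_of_tendsto_of_tendsto_of_le_of_le tendsto_const_nhds h1 (fun t => bot_le) fun t => ?_
  have h2 : Osh thinf = (fun y => (1 : ℝ) • Bmap thinf y) '' Metric.ball (0 : E 2) 1 := by
    simp only [one_smul]; rfl
  simp only []
  rw [smul_Om, h2]
  exact haus_le fun y hy => dist_B _ _ _ _ y hy

lemma behaves_bot : BehavesAs atBot Om (Osh (-thinf)) := by
  unfold BehavesAs
  have hθ : Tendsto th atBot (𝓝 (-thinf)) := by
    have := (Real.tendsto_arctan_atBot.mono_right nhdsWithin_le_nhds).const_mul (Real.sqrt 2)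
    have e : Real.sqrt 2 * -(Real.pi / 2) = -thinf := by unfold thinf; ring
    rw [e] at this
    exact this
  have h1 := ENNReal.tendsto_ofReal (eps_tendsto m_bot hθ)
  rw [ENNReal.ofReal_zero] at h1
  refine tendsto_of_tendsto_of_tendsto_of_le_of_le tendsto_const_nhds h1 (fun t => bot_le) fun t => ?_
  simp only []
  rw [smul_Om, Osh_neg]
  exact haus_le fun y hy => dist_B _ _ _ _ y hy

lemma cos_lt : Real.cos (Real.sqrt 2 * Real.pi) < 1 := by
  refine lt_of_le_of_ne (Real.cos_le_one _) fun h => ?_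
  rw [Real.cos_eq_one_iff] at h
  obtain ⟨k, hk⟩ := h
  have hp := Real.pi_pos
  have h1 : Real.sqrt 2 = 2 * k := by
    have : (k : ℝ) * (2 * Real.pi) = Real.sqrt 2 * Real.pi := hk
    have h2 : (2 * (k : ℝ) - Real.sqrt 2) * Real.pi = 0 := by linarith
    rcases mul_eq_zero.mp h2 with h3 | h3
    · linarith
    · exact absurd h3 hp.ne'
  have h2 : (1:ℝ) < Real.sqrt 2 := by
    rw [Real.lt_sqrt (by norm_num)]; norm_num
  have h3 : Real.sqrt 2 < 2 := by
    rw [Real.sqrt_lt' (by norm_num)]; norm_num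
  rw [h1] at h2 h3
  have h4 : (0:ℝ) < k := by linarith
  have h5 : (k:ℝ) < 1 := by linarith
  have h6 : 0 < k := by exact_mod_cast h4
  have h7 : k < 1 := by exact_mod_cast h5
  omega

lemma Bmap_cont (θ : ℝ) : Continuous (Bmap θ) := by
  unfold Bmap; fun_prop

lemma qf_cont (θ : ℝ) : Continuous (qf θ) := by
  unfold qf; fun_prop

lemma shapes_ne : closure (Osh thinf) ≠ closure (Osh (-thinf)) := by
  intro h
  set φ : ℝ := thinf / 2 with hφ
  set e : E 2 := !₂[Real.cos φ, Real.sin φ] with he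
  have hcs := Real.sin_sq_add_cos_sq φ
  have hen : ‖e‖ = 1 := by
    have : ‖e‖ ^ 2 = 1 := by rw [nsq]; simp [he]
    nlinarith [norm_nonneg e]
  have hmem : Bmap thinf e ∈ closure (Osh thinf) := by
    apply image_closure_subset_closure_image (Bmap_cont thinf)
    refine ⟨e, ?_, rfl⟩
    rw [closure_ball _ one_ne_zero]
    simp [hen]
  rw [h] at hmem
  have hcl : closure (Osh (-thinf)) ⊆ {y | qf (-thinf) y ≤ 1} := by
    apply closure_minimal _ (isClosed_le (qf_cont _) continuous_const)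
    rintro _ ⟨y, hy, rfl⟩
    have hy1 : ‖y‖ < 1 := by simpa using hy
    show qf (-thinf) (Bmap (-thinf) y) ≤ 1
    rw [qf_Bmap]
    nlinarith [norm_nonneg y]
  have hq := hcl hmem
  have h2 : thinf = 2 * φ := by rw [hφ]; ring
  have h3 : qf (-thinf) (Bmap thinf e) = 17 / 2 - 15 / 2 * Real.cos (Real.sqrt 2 * Real.pi) := by
    have h4 : Real.sqrt 2 * Real.pi = 2 * thinf := by unfold thinf; ring
    rw [h4, Real.cos_two_mul]
    have e0 : Bmap thinf e 0 = 2 * Real.cos φ := by
      have : Bmap thinf e 0 = (5 / 4 + 3 / 4 * Real.cos thinf) * Real.cos φ + 3 / 4 * Real.sin thinf * Real.sin φ := by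
        simp [Bmap, he]
      rw [this, h2, Real.cos_two_mul, Real.sin_two_mul]
      have : Real.sin φ ^ 2 = 1 - Real.cos φ ^ 2 := by linarith
      ring_nf
      rw [this]; ring
    have e1 : Bmap thinf e 1 = 2 * Real.sin φ := by
      have : Bmap thinf e 1 = 3 / 4 * Real.sin thinf * Real.cos φ + (5 / 4 - 3 / 4 * Real.cos thinf) * Real.sin φ := by
        simp [Bmap, he]
      rw [this, h2, Real.cos_two_mul, Real.sin_two_mul]
      ring
    unfold qf
    rw [e0, e1, Real.cos_neg, Real.sin_neg]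
    have hsq : Real.sin φ ^ 2 = 1 - Real.cos φ ^ 2 := by linarith
    rw [h2, Real.cos_two_mul, Real.sin_two_mul]
    ring_nf
    simp only [hsq]
    ring
  have h5 : qf (-thinf) (Bmap thinf e) ≤ 1 := hq
  rw [h3] at h5
  linarith [cos_lt]

lemma no_common : ¬ ∃ O : Set (E 2), BehavesAs atTop Om O ∧ BehavesAs atBot Om O := by
  rintro ⟨O, h1, h2⟩
  have key : ∀ (l : Filter ℝ) [l.NeBot] (O' : Set (E 2)), BehavesAs l Om O → BehavesAs l Om O' →
      closure O = closure O' := by
    intro l _ O' a b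
    have c : Tendsto (fun t : ℝ => Metric.hausdorffEDist (closure (t⁻¹ • Om t)) (closure O) +
        Metric.hausdorffEDist (closure (t⁻¹ • Om t)) (closure O')) l (𝓝 (0 + 0)) := a.add b
    rw [add_zero] at c
    have d : ∀ t : ℝ, Metric.hausdorffEDist (closure O) (closure O') ≤
        Metric.hausdorffEDist (closure (t⁻¹ • Om t)) (closure O) +
        Metric.hausdorffEDist (closure (t⁻¹ • Om t)) (closure O') := by
      intro t
      refine Metric.hausdorffEDist_triangle (t := closure (t⁻¹ • Om t)) |>.trans ?_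
      rw [Metric.hausdorffEDist_comm]
    have e : Metric.hausdorffEDist (closure O) (closure O') ≤ 0 := ge_of_tendsto' c d
    have f : Metric.hausdorffEDist (closure O) (closure O') = 0 := le_antisymm e bot_le
    have g := Metric.hausdorffEDist_zero_iff_closure_eq_closure.mp f
    simpa using g
  have a1 := key atTop _ h1 behaves_top
  have a2 := key atBot _ h2 behaves_bot
  exact shapes_ne (a1.symm.trans a2)


/-! ### The flow conditions -/

lemma F_cont (t : ℝ) : Continuous (F t) := by unfold F Nf; fun_prop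

lemma Om_open (t : ℝ) : IsOpen (Om t) := isOpen_lt continuous_const (F_cont t)

lemma map_cont (t : ℝ) : Continuous fun y => Real.sqrt (P t) • Bmap (th t) y :=
  (Bmap_cont (th t)).fun_const_smul (Real.sqrt (P t))

/-- a compact set containing the cloud -/
lemma Om_compact (t : ℝ) : ∃ r : ℝ, closure (Om t) ⊆ Metric.closedBall 0 r := by
  have hK : IsCompact ((fun y => Real.sqrt (P t) • Bmap (th t) y) '' Metric.closedBall (0 : E 2) 1) :=
    (isCompact_closedBall _ _).image (map_cont t)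
  obtain ⟨r, hr⟩ := hK.isBounded.subset_closedBall 0
  refine ⟨r, closure_minimal ?_ Metric.isClosed_closedBall⟩
  rw [Om_eq]
  exact (image_mono Metric.ball_subset_closedBall).trans hr

lemma Om_bdd (t : ℝ) : Bornology.IsBounded (Om t) := by
  obtain ⟨r, hr⟩ := Om_compact t
  exact Metric.isBounded_closedBall.subset (subset_closure.trans hr)

lemma Om_nonempty (t : ℝ) : (Om t).Nonempty := ⟨0, by simp [Om, F, Nf]⟩

lemma F_front {t : ℝ} {x : E 2} (hx : x ∈ frontier (Om t)) : F t x = 0 :=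
  (frontier_lt_subset_eq continuous_const (F_cont t) hx).symm

lemma F_fderiv (t : ℝ) (x : E 2) (v : E 2) : fderiv ℝ (F t) x v =
    -((2 * al t * x 0 + 2 * ka t * x 1) * v 0 + (2 * be t * x 1 + 2 * ka t * x 0) * v 1) := by
  have p0 : HasFDerivAt (fun y : E 2 => y 0) (EuclideanSpace.proj (𝕜 := ℝ) 0 : E 2 →L[ℝ] ℝ) x :=
    (EuclideanSpace.proj (𝕜 := ℝ) 0 : E 2 →L[ℝ] ℝ).hasFDerivAt
  have p1 : HasFDerivAt (fun y : E 2 => y 1) (EuclideanSpace.proj (𝕜 := ℝ) 1 : E 2 →L[ℝ] ℝ) x :=
    (EuclideanSpace.proj (𝕜 := ℝ) 1 : E 2 →L[ℝ] ℝ).hasFDerivAt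
  have h := ((((p0.fun_mul p0).const_mul (al t)).fun_add ((p1.fun_mul p1).const_mul (be t))).fun_add
    ((p0.fun_mul p1).const_mul (2 * ka t))).const_sub 1
  have e : F t = fun y : E 2 => 1 - (al t * (y 0 * y 0) + be t * (y 1 * y 1) + 2 * ka t * (y 0 * y 1)) := by
    funext y; unfold F Nf; ring
  rw [e, h.fderiv]
  simp
  ring

lemma rho_cont {A : ℝ} (t : ℝ) : Continuous (rho A t) := by
  have h : Continuous (R A t) := by
    unfold R; exact continuous_const.mul (F_cont t)
  exact h.max continuous_const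

lemma rho_zero {A : ℝ} (hA : 0 < A) {t : ℝ} {x : E 2} (h : x ∉ Om t) : rho A t x = 0 := by
  unfold rho
  apply max_eq_right
  have h1 : F t x ≤ 0 := not_lt.mp h
  unfold R
  have := P_pos t
  apply mul_nonpos_of_nonneg_of_nonpos _ h1
  positivity

lemma rho_pos {A : ℝ} (hA : 0 < A) {t : ℝ} {x : E 2} (h : x ∈ Om t) : 0 < rho A t x := by
  have h1 : 0 < F t x := h
  rw [rho_eq hA h1]
  unfold R
  have := P_pos t
  positivity

lemma vel_cont (t : ℝ) : Continuous (vel t) := by
  have := vel_smooth.continuous.comp (Continuous.prodMk_right t)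
  exact this

lemma compact_supp {f : E 2 → ℝ} {t : ℝ} (h : ∀ x ∉ Om t, f x = 0) : HasCompactSupport f := by
  obtain ⟨r, hr⟩ := Om_compact t
  refine HasCompactSupport.intro (isCompact_closedBall 0 r) fun x hx => h x fun hx' => hx ?_
  exact hr (subset_closure hx')

lemma R_lip (A t r : ℝ) : ∃ L, LipschitzOnWith L (R A t) (Metric.closedBall 0 r) := by
  have h : ContDiff ℝ 1 (R A t) := by
    have h1 := (R_smooth A).comp ((contDiff_const (c := t)).prodMk (contDiff_id (E := E 2)))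
    exact h1.of_le (by exact_mod_cast le_top)
  exact h.contDiffOn.exists_lipschitzOnWith one_ne_zero (convex_closedBall _ _)
    (isCompact_closedBall _ _)

lemma is_flow {A : ℝ} (hA : 0 < A) : IsVacuumFlow 2 A 2 Om (rho A) vel F := by
  refine ⟨F_smooth, fun t => ⟨rfl, Om_open t, Om_bdd t, Om_nonempty t⟩, ?_,
    fun t => ⟨fun x hx => rho_pos hA hx, fun x hx => rho_zero hA hx⟩, ?_, ?_, ?_, ?_, ?_, ?_, ?_, ?_⟩
  · intro t x hx h
    have h1 := F_fderiv t x x
    rw [h] at h1
    have h2 := F_front hx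
    unfold F Nf at h2
    simp only [zero_apply] at h1
    nlinarith
  · intro t
    constructor
    · exact (rho_cont t).integrable_of_hasCompactSupport
        (compact_supp (t := t) fun x hx => rho_zero hA hx)
    · apply Continuous.integrable_of_hasCompactSupport
      · have h1 : Continuous fun x => rho A t x ^ (2:ℝ) := by
          simp only [Real.rpow_two]; exact (rho_cont t).pow 2
        exact (((rho_cont t).mul ((vel_cont t).norm.pow 2)).div_const 2).add
          ((continuous_const.mul h1).div_const _)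
      · apply compact_supp (t := t)
        intro x hx
        rw [rho_zero hA hx]
        norm_num
  · refine ((R_smooth A).contDiffOn.of_le (by exact_mod_cast le_top)).congr ?_
    intro z hz
    exact rho_eq hA hz
  · exact vel_smooth.contDiffOn.of_le (by exact_mod_cast le_top)
  · exact fun t x hx => euler hA hx
  · exact ⟨univ, isOpen_univ, fun _ _ _ => mem_univ _, vel_smooth.contDiffOn⟩
  · intro t x _
    have h1 : deriv (fun s => F s x) t = -(Nt t (x 0) (x 1)) :=
      ((Nf_t t (x 0) (x 1)).const_sub 1).deriv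
    rw [h1, F_fderiv]
    have h2 := transport t (x 0) (x 1)
    have e0 : vel t x 0 = u0 t (x 0) (x 1) := by simp [vel]
    have e1 : vel t x 1 = u1 t (x 0) (x 1) := by simp [vel]
    rw [e0, e1]; linarith
  · intro t
    obtain ⟨r, hr⟩ := Om_compact t
    obtain ⟨L, hL⟩ := R_lip A t r
    have hg : LipschitzWith (Real.toNNReal (2 * A)) fun y : ℝ => 2 * A * max y 0 := by
      apply LipschitzWith.of_dist_le_mul
      intro y z
      rw [Real.coe_toNNReal _ (by positivity), Real.dist_eq, Real.dist_eq, ← mul_sub, abs_mul,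
        abs_of_pos (by positivity : 0 < 2 * A)]
      apply mul_le_mul_of_nonneg_left _ (by positivity)
      exact abs_max_sub_max_le_abs y z 0
    have h1 := hg.comp_lipschitzOnWith (hL.mono hr)
    have e : (fun x => 2 * A * rho A t x ^ ((2:ℝ) - 1)) = (fun y : ℝ => 2 * A * max y 0) ∘ R A t := by
      funext x
      have : (2:ℝ) - 1 = 1 := by norm_num
      rw [this, Real.rpow_one]; rfl
    rw [e]
    exact ⟨_, h1⟩
  · have hth : th 0 = 0 := by simp [th]
    have hP : P 0 = 1 := by simp [P]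
    have hal : al 0 = 1 / 4 := by unfold al; rw [hth, hP]; norm_num
    have hbe : be 0 = 4 := by unfold be; rw [hth, hP]; norm_num
    have hka : ka 0 = 0 := by unfold ka; rw [hth, hP]; norm_num
    refine ⟨0, !₂[2, 0], ?_, !₂[1, 0], ?_, ⟨1, one_pos, ?_⟩, 1 / 2, by norm_num, ?_⟩
    · rw [frontier, (Om_open 0).interior_eq]
      constructor
      · rw [Om_eq]
        have hm : (!₂[2, 0] : E 2) = (fun y => Real.sqrt (P 0) • Bmap (th 0) y) !₂[1, 0] := by
          ext i
          fin_cases i <;> simp [Bmap, hth, hP]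
          norm_num
        rw [hm]
        apply image_closure_subset_closure_image (map_cont 0)
        refine ⟨!₂[1, 0], ?_, rfl⟩
        rw [closure_ball _ one_ne_zero, Metric.mem_closedBall, dist_zero_right]
        have : ‖(!₂[1, 0] : E 2)‖ ^ 2 = 1 := by rw [nsq]; simp
        nlinarith [norm_nonneg (!₂[1, 0] : E 2)]
      · simp [Om, F, Nf, hal, hbe, hka]
        norm_num
    · have : ‖(!₂[1, 0] : E 2)‖ ^ 2 = 1 := by rw [nsq]; simp
      nlinarith [norm_nonneg (!₂[1, 0] : E 2)]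
    · intro v
      rw [F_fderiv, hal, hbe, hka]
      simp [PiLp.inner_apply]
      norm_num
    · have h1 : Tendsto (fun h : ℝ => 1 / 2 - h / 8) (𝓝[>] 0) (𝓝 (1 / 2)) := by
        have : Continuous fun h : ℝ => 1 / 2 - h / 8 := by fun_prop
        have := (this.tendsto 0).mono_left (nhdsWithin_le_nhds (s := Ioi 0))
        simpa using this
      refine h1.congr' ?_
      have h4 : ∀ᶠ h : ℝ in 𝓝[>] 0, h < 4 :=
        (eventually_lt_nhds (by norm_num : (0:ℝ) < 4)).filter_mono nhdsWithin_le_nhds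
      filter_upwards [h4, self_mem_nhdsWithin] with h hh4 hh0
      have hh0' : 0 < h := hh0
      have hF : F 0 ((!₂[2, 0] : E 2) - h • !₂[1, 0]) = h - h ^ 2 / 4 := by
        simp [F, Nf, hal, hbe, hka]
        ring
      have hFp : 0 < F 0 ((!₂[2, 0] : E 2) - h • !₂[1, 0]) := by
        rw [hF]; nlinarith
      rw [rho_eq hA hFp]
      have e1 : (2:ℝ) - 1 = 1 := by norm_num
      rw [e1, Real.rpow_one]
      unfold R
      rw [hF, hP]
      field_simp
      ring

/-- For every `A > 0` there is, in dimension `d = 2` and for `γ = 2`, a shock-free eternal flow in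
vacuum with physical singularity (and smooth front, indeed an affine motion of an ellipse) whose
asymptotic shapes at the two time ends exist but are different; no single set `O` serves at both
ends. -/
theorem result : ∀ A : ℝ, 0 < A → ∃ (Ω : ℝ → Set (E 2)) (ρ : ℝ → E 2 → ℝ) (u : ℝ → E 2 → E 2)
    (F : ℝ → E 2 → ℝ), IsVacuumFlow 2 A 2 Ω ρ u F ∧
    (∃ O₁ O₂ : Set (E 2), Bornology.IsBounded O₁ ∧ Bornology.IsBounded O₂ ∧
      BehavesAs atTop Ω O₁ ∧ BehavesAs atBot Ω O₂ ∧ closure O₁ ≠ closure O₂) ∧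
    ¬ ∃ O : Set (E 2), BehavesAs atTop Ω O ∧ BehavesAs atBot Ω O := by
  intro A hA
  have hb : ∀ θ, Bornology.IsBounded (Osh θ) := fun θ =>
    (((isCompact_closedBall (0 : E 2) 1).image (Bmap_cont θ)).isBounded).subset
      (image_mono Metric.ball_subset_closedBall)
  exact ⟨Om, rho A, vel, F, is_flow hA,
    ⟨Osh thinf, Osh (-thinf), hb _, hb _, behaves_top, behaves_bot, shapes_ne⟩, no_common⟩


end Pool.Agent.Results.MP_f907ca_an.RotatingCloud
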